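import Pool.Agent.Helper80.KR.Tree

/-!
# Symmetric matrices with prescribed zeros and the Laplacians of the cone graph
-/

set_option autoImplicit false

open MvPolynomial

namespace Pool.Agent.Helper50.KR

namespace ConeAux

open TreeAux

lemma rank_eq_card_iff {k : Type*} [Field k] {ι : Type*} [Fintype ι] [DecidableEq ι]
    (M : Matrix ι ι k) : M.rank = Fintype.card ι ↔ M.det ≠ 0 := by
  constructor
  · intro h hd
    obtain ⟨v, hv, hMv⟩ := Matrix.exists_mulVec_eq_zero_iff.mpr hd
    have h1 := LinearMap.finrank_range_add_finrank_ker M.mulVecLin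
    have h2 : Module.finrank k (LinearMap.range M.mulVecLin) = Fintype.card ι := h
    rw [h2, Module.finrank_fintype_fun_eq_card] at h1
    have h3 : Module.finrank k (LinearMap.ker M.mulVecLin) = 0 := by omega
    have h4 : LinearMap.ker M.mulVecLin = ⊥ := Submodule.finrank_eq_zero.mp h3
    have h5 : v ∈ LinearMap.ker M.mulVecLin := by
      rw [LinearMap.mem_ker]
      exact hMv
    rw [h4] at h5
    exact hv (by simpa using h5)
  · exact Matrix.rank_of_det_ne_zero

variable {ι : Type}

/-- the vertices of the cone other than the apex -/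
def eO (ι : Type) : ι ≃ {v : Option ι // v ≠ none} where
  toFun i := ⟨some i, by simp⟩
  invFun v := v.1.get (Option.isSome_iff_ne_none.mpr v.2)
  left_inv i := by simp
  right_inv v := by simp

/-- the symmetric matrix of edge weights -/
noncomputable def phi [Fintype ι] {k : Type*} [CommRing k] (Z : Set (ι × ι))
    (x : (coneGraph Z).edgeSet → k) : Matrix ι ι k :=
  (redLap (coneGraph Z) none x).submatrix (eO ι) (eO ι)

section
variable [Fintype ι] {k : Type*} [CommRing k] (Z : Set (ι × ι)) (x : (coneGraph Z).edgeSet → k)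

lemma det_phi [DecidableEq ι] : (phi Z x).det = (redLap (coneGraph Z) none x).det := by
  unfold phi
  rw [Matrix.det_submatrix_equiv_self]

lemma phi_off (i j : ι) (h : i ≠ j) : phi Z x i j =
    (open Classical in if h : (coneGraph Z).Adj (some i) (some j) then
      - x ⟨s(some i, some j), h⟩ else 0) := by
  unfold phi
  rw [Matrix.submatrix_apply]
  unfold redLap
  rw [if_neg]
  · rfl
  · exact fun hh => h ((eO ι).injective hh)

lemma phi_off_adj (i j : ι) (h : i ≠ j) (ha : (coneGraph Z).Adj (some i) (some j)) :
    phi Z x i j = - x ⟨s(some i, some j), ha⟩ := by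
  rw [phi_off Z x i j h, dif_pos ha]

lemma phi_off_not (i j : ι) (h : i ≠ j) (ha : ¬ (coneGraph Z).Adj (some i) (some j)) :
    phi Z x i j = 0 := by
  rw [phi_off Z x i j h, dif_neg ha]

lemma adj_none (i : ι) : (coneGraph Z).Adj none (some i) := trivial

lemma row_sum (i : ι) : ∑ j, phi Z x i j = x ⟨s(none, some i), adj_none Z i⟩ := by
  classical
  have h1 : ∀ j, phi Z x i j = ∑ e : (coneGraph Z).edgeSet,
      (x e * (bb e (some i) : k)) * (bb e (some j) : k) := by
    intro j
    unfold phi
    rw [Matrix.submatrix_apply, redLap_eq]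
    rfl
  simp_rw [h1]
  rw [Finset.sum_comm]
  have h2 : ∀ e : (coneGraph Z).edgeSet, ∑ j, (x e * (bb e (some i) : k)) * (bb e (some j) : k) =
      if e.1 = s(none, some i) then x e else 0 := by
    intro e
    rw [← Finset.mul_sum]
    have h3 : ∑ v : Option ι, (bb e v : k) = 0 := by
      simp [bb, Finset.sum_sub_distrib]
    rw [Fintype.sum_option] at h3
    have h4 : ∑ j : ι, (bb e (some j) : k) = - (bb e none : k) := by
      rw [eq_neg_iff_add_eq_zero, add_comm]
      exact h3
    rw [h4, mul_neg, mul_assoc, ← Int.cast_mul, mul_comm (bb e (some i)), bb_mul _ _ _ (by simp)]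
    split_ifs <;> simp
  rw [Finset.sum_congr rfl fun e _ => h2 e, Finset.sum_eq_single ⟨s(none, some i), adj_none Z i⟩]
  · simp
  · intro e _ he
    rw [if_neg]
    exact fun h => he (Subtype.ext h)
  · simp

lemma phi_symm : (phi Z x).IsSymm := by
  classical
  refine Matrix.IsSymm.ext fun i j => ?_
  by_cases h : i = j
  · rw [h]
  · unfold phi
    rw [Matrix.submatrix_apply, Matrix.submatrix_apply, redLap_eq, redLap_eq]
    refine Finset.sum_congr rfl fun e _ => ?_
    ring

lemma phi_inj (y : (coneGraph Z).edgeSet → k) (h : phi Z x = phi Z y) : x = y := by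
  classical
  funext ⟨e, he⟩
  induction e using Sym2.ind with
  | _ a b =>
  rcases a with _ | i
  · rcases b with _ | j
    · exact absurd he (by
        rw [SimpleGraph.mem_edgeSet]
        exact fun hh => (coneGraph Z).loopless.irrefl _ hh)
    · have h1 := row_sum Z x j
      have h2 := row_sum Z y j
      rw [h] at h1
      rw [h1] at h2
      exact h2
  · rcases b with _ | j
    · have h1 := row_sum Z x i
      have h2 := row_sum Z y i
      rw [h] at h1
      rw [h1] at h2
      have h3 : (⟨s(some i, none), he⟩ : (coneGraph Z).edgeSet) = ⟨s(none, some i), adj_none Z i⟩ :=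
        Subtype.ext Sym2.eq_swap
      rw [h3]
      exact h2
    · have ha : (coneGraph Z).Adj (some i) (some j) := he
      have hne : i ≠ j := fun hh => by
        rw [hh] at ha
        exact (coneGraph Z).loopless.irrefl _ ha
      have h1 := phi_off_adj Z x i j hne ha
      have h2 := phi_off_adj Z y i j hne ha
      rw [h, h2] at h1
      exact (neg_injective h1).symm

/-- the weights of a symmetric matrix -/
def wt (M : Matrix ι ι k) (hM : M.IsSymm) : Sym2 (Option ι) → k :=
  Sym2.lift ⟨fun a b => match a, b with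
    | none, none => 0
    | none, some i => ∑ j, M i j
    | some i, none => ∑ j, M i j
    | some i, some j => - M i j, by
    rintro (_ | i) (_ | j)
    · rfl
    · rfl
    · rfl
    · exact congrArg _ (hM.apply j i)⟩

lemma phi_surj [DecidableEq ι] (M : Matrix ι ι k) (hM : M.IsSymm) (hZ : ∀ p ∈ Z, M p.1 p.2 = 0) :
    phi Z (fun e => wt M hM e.1) = M := by
  have hoff : ∀ i j, i ≠ j → phi Z (fun e => wt M hM e.1) i j = M i j := by
    intro i j hij
    by_cases ha : (coneGraph Z).Adj (some i) (some j)
    · rw [phi_off_adj Z _ i j hij ha]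
      simp [wt]
    · rw [phi_off_not Z _ i j hij ha]
      have : (i, j) ∈ Z ∨ (j, i) ∈ Z := by
        by_contra hh
        push Not at hh
        exact ha ⟨hij, hh.1, hh.2⟩
      rcases this with h | h
      · exact (hZ _ h).symm
      · rw [← hM.apply i j]
        exact (hZ _ h).symm
  ext i j
  by_cases hij : i = j
  · subst hij
    have h1 := row_sum Z (fun e => wt M hM e.1) i
    have h2 : wt M hM s(none, some i) = ∑ j, M i j := rfl
    simp only [h2] at h1
    rw [← Finset.add_sum_erase _ _ (Finset.mem_univ i), ← Finset.add_sum_erase _ _ (Finset.mem_univ i),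
      Finset.sum_congr rfl (fun j hj => hoff i j (Finset.ne_of_mem_erase hj).symm)] at h1
    exact add_right_cancel h1
  · exact hoff i j hij

end

end ConeAux

open ConeAux

/-- M7b -/
theorem scount_cone {k : Type} [Field k] [Fintype k] {ι : Type} [Fintype ι] [DecidableEq ι] (Z : Set (ι × ι))
    (hZ : ∀ p ∈ Z, p.1 ≠ p.2) :
    Nat.card {x : (coneGraph Z).edgeSet → k // (redLap (coneGraph Z) none x).det ≠ 0} =
      scount k ι Z ∅ (Fintype.card ι) := by
  unfold scount
  refine Nat.card_eq_of_bijective (fun x => ⟨phi Z x.1, phi_symm Z x.1, ?_, ?_, ?_⟩) ⟨?_, ?_⟩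
  · intro p hp
    refine phi_off_not Z x.1 p.1 p.2 (hZ p hp) ?_
    intro h
    exact h.2.1 hp
  · intro p hp
    exact absurd hp (Set.notMem_empty p)
  · rw [rank_eq_card_iff, det_phi]
    exact x.2
  · intro x y h
    have h1 : phi Z x.1 = phi Z y.1 := congrArg Subtype.val h
    exact Subtype.ext (phi_inj Z x.1 y.1 h1)
  · rintro ⟨M, hM, hMZ, -, hr⟩
    have h1 := phi_surj Z M hM hMZ
    refine ⟨⟨fun e => wt M hM e.1, ?_⟩, Subtype.ext h1⟩
    rw [← det_phi, h1]
    exact (rank_eq_card_iff M).mp hr

end Pool.Agent.Helper50.KR
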