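import Pool.Agent.Helper50.KR.MG
import Pool.Agent.Helper80.KR.Cone

/-!
# From the zeta functions of Kirchhoff hypersurfaces to counts of symmetric matrices
-/

set_option autoImplicit false

open AlgebraicGeometry Pool.Agent.Helper29.Zeta

namespace Pool.Agent.Helper50.KR

namespace KirAux

/-! ### Points of affine hypersurfaces -/

lemma cnt_hyp {σ : Type} [Finite σ] (f : MvPolynomial σ ℤ) (n : ℕ) :
    cnt (MvPolynomial σ ℤ ⧸ Ideal.span {f}) ⊥ n =
      (Nat.card {x : σ → FF n // MvPolynomial.aeval x f = 0} : ℝ) := by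
  unfold cnt
  congr 1
  refine Nat.card_congr (Equiv.ofBijective
      (fun φ => ⟨fun i => φ.1 (Ideal.Quotient.mk _ (MvPolynomial.X i)), ?_⟩) ⟨?_, ?_⟩)
  · have h3 : (φ.1.comp (Ideal.Quotient.mk (Ideal.span {f}))) =
          ((MvPolynomial.aeval (fun i => φ.1 (Ideal.Quotient.mk _ (MvPolynomial.X i))) :
            MvPolynomial σ ℤ →ₐ[ℤ] FF n) : MvPolynomial σ ℤ →+* FF n) := by
      refine MvPolynomial.ringHom_ext' (RingHom.ext_int _ _) fun i => ?_
      simp
    have h4 := congrArg (fun ψ : MvPolynomial σ ℤ →+* FF n => ψ f) h3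
    refine Eq.trans h4.symm ?_
    show φ.1 (Ideal.Quotient.mk (Ideal.span {f}) f) = 0
    rw [Ideal.Quotient.eq_zero_iff_mem.mpr (Ideal.subset_span (Set.mem_singleton _)), map_zero]
  · intro φ ψ h
    apply Subtype.ext
    refine Ideal.Quotient.ringHom_ext ?_
    exact MvPolynomial.ringHom_ext' (RingHom.ext_int _ _) fun i =>
      congrFun (congrArg Subtype.val h) i
  · rintro ⟨x, hx⟩
    let ev : MvPolynomial σ ℤ →+* FF n :=
      ((MvPolynomial.aeval x : MvPolynomial σ ℤ →ₐ[ℤ] FF n) : MvPolynomial σ ℤ →+* FF n)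
    have hker : ∀ a ∈ Ideal.span {f}, ev a = 0 := by
      intro a ha
      obtain ⟨b, rfl⟩ := Ideal.mem_span_singleton.mp ha
      have h0 : ev f = 0 := hx
      rw [map_mul, h0, zero_mul]
    refine ⟨⟨Ideal.Quotient.lift (Ideal.span {f}) ev hker, bot_le⟩, ?_⟩
    apply Subtype.ext
    funext i
    show Ideal.Quotient.lift (Ideal.span {f}) ev hker
        (Ideal.Quotient.mk _ (MvPolynomial.X i)) = x i
    rw [Ideal.Quotient.lift_mk]
    simp [ev]

lemma fg_hyp {σ : Type} [Finite σ] (f : MvPolynomial σ ℤ) :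
    @Algebra.FiniteType ℤ (MvPolynomial σ ℤ ⧸ Ideal.span {f}) _ _
      (Ring.toIntAlgebra (MvPolynomial σ ℤ ⧸ Ideal.span {f})) := by
  have h1 : Algebra.FiniteType ℤ (MvPolynomial σ ℤ ⧸ Ideal.span {f}) :=
    Algebra.FiniteType.of_surjective (Ideal.Quotient.mkₐ ℤ _) (Ideal.Quotient.mkₐ_surjective ℤ _)
  have e := Subsingleton.elim (Ideal.Quotient.algebra ℤ : Algebra ℤ (MvPolynomial σ ℤ ⧸ Ideal.span {f}))
    (Ring.toIntAlgebra (MvPolynomial σ ℤ ⧸ Ideal.span {f}))
  exact e ▸ h1

lemma mg_hyp {σ : Type} [Finite σ] (f : MvPolynomial σ ℤ)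
    (h : ZetaMero (Spec (CommRingCat.of (MvPolynomial σ ℤ ⧸ Ideal.span {f})))) :
    MG (fun n => (Nat.card {x : σ → FF n // MvPolynomial.aeval x f = 0} : ℤ)) := by
  refine ⟨growth_card σ (fun n x => MvPolynomial.aeval x f = 0), ?_⟩
  have := fg_hyp f
  refine (mero_of_spec (MvPolynomial σ ℤ ⧸ Ideal.span {f}) h).congr fun n _ => ?_
  rw [cnt_hyp]
  push_cast
  rfl

/-! ### Transport along isomorphisms -/

section iso

variable {V V' : Type} [Fintype V] [Fintype V'] {G : SimpleGraph V} {G' : SimpleGraph V'}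

/-- the vertices other than the root -/
def subE (φ : G ≃g G') (o : V) : {v // v ≠ o} ≃ {v // v ≠ φ o} :=
  φ.toEquiv.subtypeEquiv fun v => by
    show v ≠ o ↔ φ v ≠ φ o
    rw [not_iff_not]
    exact (φ.injective.eq_iff).symm

lemma redLap_iso (φ : G ≃g G') (o : V) {R : Type*} [CommRing R] (x : G'.edgeSet → R) :
    redLap G o (fun e => x (φ.mapEdgeSet e)) =
      (redLap G' (φ o) x).submatrix (subE φ o) (subE φ o) := by
  classical
  ext v w
  rw [Matrix.submatrix_apply]
  unfold redLap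
  by_cases hvw : v = w
  · subst hvw
    rw [if_pos rfl, if_pos rfl]
    refine Fintype.sum_equiv φ.mapEdgeSet _ _ fun e => ?_
    refine if_congr ?_ rfl rfl
    show v.1 ∈ e.1 ↔ φ v.1 ∈ Sym2.map φ e.1
    rw [Sym2.mem_map]
    constructor
    · intro h
      exact ⟨v.1, h, rfl⟩
    · rintro ⟨a, ha, hav⟩
      rw [← φ.injective hav]
      exact ha
  · rw [if_neg hvw, if_neg (fun h => hvw ((subE φ o).injective h))]
    by_cases h : G.Adj v.1 w.1
    · have h' : G'.Adj (subE φ o v).1 (subE φ o w).1 := φ.map_adj_iff.mpr h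
      rw [dif_pos h, dif_pos h']
      rfl
    · have h' : ¬ G'.Adj (subE φ o v).1 (subE φ o w).1 := fun hh => h (φ.map_adj_iff.mp hh)
      rw [dif_neg h, dif_neg h']

lemma det_iso [DecidableEq V] [DecidableEq V'] (φ : G ≃g G') (o : V) {R : Type*} [CommRing R]
    (x : G'.edgeSet → R) :
    (redLap G o (fun e => x (φ.mapEdgeSet e))).det = (redLap G' (φ o) x).det := by
  rw [redLap_iso, Matrix.det_submatrix_equiv_self]

lemma card_iso [DecidableEq V] [DecidableEq V'] (φ : G ≃g G') (o : V) (o' : V') (ho : φ o = o')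
    (k : Type) [Field k] :
    Nat.card {x : G.edgeSet → k // (redLap G o x).det ≠ 0} =
      Nat.card {x : G'.edgeSet → k // (redLap G' o' x).det ≠ 0} := by
  subst ho
  symm
  refine Nat.card_congr ((Equiv.arrowCongr φ.mapEdgeSet.symm (Equiv.refl k)).subtypeEquiv fun x => ?_)
  have : (Equiv.arrowCongr φ.mapEdgeSet.symm (Equiv.refl k)) x = fun e => x (φ.mapEdgeSet e) := rfl
  rw [this, det_iso]

end iso

lemma scount_reindex (k : Type) [Field k] {ι κ : Type} [Fintype ι] [Fintype κ] (e : ι ≃ κ)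
    (Z : Set (ι × ι)) (r : ℕ) :
    scount k ι Z ∅ r = scount k κ (Prod.map e e '' Z) ∅ r := by
  unfold scount
  refine Nat.card_congr ((Matrix.reindex e e).subtypeEquiv fun M => ?_)
  have h1 : M.IsSymm ↔ (Matrix.reindex e e M).IsSymm := by
    constructor
    · intro h
      exact h.submatrix _
    · intro h
      have := h.submatrix e
      simpa using this
  have h2 : (∀ p ∈ Z, M p.1 p.2 = 0) ↔ ∀ p ∈ Prod.map e e '' Z, Matrix.reindex e e M p.1 p.2 = 0 := by
    constructor
    · rintro h _ ⟨p, hp, rfl⟩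
      simpa using h p hp
    · intro h p hp
      simpa using h _ ⟨p, hp, rfl⟩
  have h3 : M.rank = (Matrix.reindex e e M).rank := (Matrix.rank_reindex e e M).symm
  rw [← h1, ← h2, ← h3]
  simp

/-- complements -/
lemma card_compl {α : Type} [Finite α] (p : α → Prop) :
    (Nat.card {x : α // ¬ p x} : ℤ) = Nat.card α - Nat.card {x : α // p x} := by
  classical
  have := Fintype.ofFinite α
  have h := Fintype.card_subtype_compl p
  have h2 := Fintype.card_subtype_le p
  rw [Nat.card_eq_fintype_card, Nat.card_eq_fintype_card, Nat.card_eq_fintype_card, h]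
  omega

end KirAux

open KirAux

section
variable (h : ∀ (N : ℕ) (G : SimpleGraph (Fin (N + 1))), (∀ v, v ≠ 0 → G.Adj 0 v) →
  ZetaMero (Spec (CommRingCat.of (MvPolynomial G.edgeSet ℤ ⧸ Ideal.span {kirchhoff G}))))

include h

lemma mg_kir (N : ℕ) (G : SimpleGraph (Fin (N + 1))) (hG : ∀ v, v ≠ 0 → G.Adj 0 v) :
    MG (fun n => (Nat.card {x : G.edgeSet → FF n // (redLap G 0 x).det = 0} : ℤ)) := by
  refine (mg_hyp (kirchhoff G) (h N G hG)).congr fun n _ => ?_
  simp only [matrix_tree]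

lemma mg_one_kir : MG (fun _ => 1) := by
  refine (mg_kir h 1 ⊤ (fun v hv => hv.symm)).congr fun n _ => ?_
  rw [Nat.cast_eq_one, Nat.card_eq_one_iff_unique]
  -- the only vertex other than the root
  have key : ∀ x : (⊤ : SimpleGraph (Fin 2)).edgeSet → FF n, (redLap ⊤ 0 x).det = 0 → x = fun _ => 0 := by
    intro x hx
    have hne : ∀ e : (⊤ : SimpleGraph (Fin 2)).edgeSet, e.1 = s(0, 1) := by
      rintro ⟨e, he⟩
      induction e using Sym2.ind with
      | _ a b =>
      have hab : a ≠ b := he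
      fin_cases a <;> fin_cases b
      · exact absurd rfl hab
      · rfl
      · exact Sym2.eq_swap
      · exact absurd rfl hab
    let e0 : (⊤ : SimpleGraph (Fin 2)).edgeSet := ⟨s(0, 1), by simp⟩
    have huniq : ∀ e, e = e0 := fun e => Subtype.ext (hne e)
    have hs : ∀ (inst : Fintype (⊤ : SimpleGraph (Fin 2)).edgeSet)
        (f : (⊤ : SimpleGraph (Fin 2)).edgeSet → FF n), ∑ e ∈ @Finset.univ _ inst, f e = f e0 := by
      intro inst f
      exact Finset.sum_eq_single e0 (fun e _ he => absurd (huniq e) he)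
        (fun hh => absurd (@Finset.mem_univ _ inst _) hh)
    have hv1 : ∀ v : {v : Fin 2 // v ≠ 0}, v.1 = 1 := by
      rintro ⟨v, hv⟩
      show v = 1
      fin_cases v
      · exact absurd rfl hv
      · rfl
    have hd : (redLap (⊤ : SimpleGraph (Fin 2)) 0 x).det = x e0 := by
      haveI : Unique {v : Fin 2 // v ≠ 0} :=
        { default := ⟨1, by decide⟩
          uniq := by
            rintro ⟨v, hv⟩
            apply Subtype.ext
            show v = 1
            fin_cases v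
            · exact absurd rfl hv
            · rfl }
      rw [Matrix.det_unique]
      unfold redLap
      rw [if_pos rfl]
      refine (hs _ _).trans ?_
      rw [if_pos]
      rw [hv1 default]
      show (1 : Fin 2) ∈ (s(0, 1) : Sym2 (Fin 2))
      simp
    funext e
    rw [huniq e, ← hd, hx]
  have hz : (redLap (⊤ : SimpleGraph (Fin 2)) 0 (fun _ => (0 : FF n))).det = 0 := by
    have h1 : redLap (⊤ : SimpleGraph (Fin 2)) 0 (fun _ => (0 : FF n)) = 0 := by
      ext v w
      unfold redLap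
      split_ifs <;> simp
    haveI : Nonempty {v : Fin 2 // v ≠ 0} := ⟨⟨1, by decide⟩⟩
    rw [h1, Matrix.det_zero]
  refine ⟨⟨fun a b => Subtype.ext ?_⟩, ⟨⟨fun _ => 0, hz⟩⟩⟩
  rw [key a.1 a.2, key b.1 b.2]

lemma mg_pow_kir (a : ℕ) : MG (fun n => (n : ℤ) ^ a) := by
  have := (mg_one_kir h).mul_poly (Polynomial.X ^ a)
  refine this.congr fun n _ => ?_
  simp

/-- M8 -/
theorem hyp_of_kirchhoff : ∀ (ι : Type) [Fintype ι] (Z : Set (ι × ι)), (∀ p ∈ Z, p.1 ≠ p.2) →
    MG (fun n => (scount (FF n) ι Z ∅ (Fintype.card ι) : ℤ)) := by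
  classical
  intro ι _ Z hZ
  set N := Fintype.card ι with hN
  let e : ι ≃ Fin N := Fintype.equivFin ι
  let Z' : Set (Fin N × Fin N) := Prod.map e e '' Z
  have hZ' : ∀ p ∈ Z', p.1 ≠ p.2 := by
    rintro _ ⟨p, hp, rfl⟩ hh
    exact hZ p hp (e.injective hh)
  let G : SimpleGraph (Fin (N + 1)) := (coneGraph Z').comap (finSuccEquiv N)
  let φ : G ≃g coneGraph Z' := ⟨finSuccEquiv N, Iff.rfl⟩
  have hφ0 : φ 0 = none := finSuccEquiv_zero (n := N)
  have hG : ∀ v, v ≠ 0 → G.Adj 0 v := by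
    intro v hv
    obtain ⟨w, rfl⟩ := Fin.exists_succ_eq.mpr hv
    show (coneGraph Z').Adj (finSuccEquiv N 0) (finSuccEquiv N w.succ)
    rw [finSuccEquiv_zero, finSuccEquiv_succ]
    trivial
  have h1 := (mg_pow_kir h (Nat.card G.edgeSet)).sub (mg_kir h N G hG)
  refine h1.congr fun n hn => ?_
  have : Fintype (FF n) := Fintype.ofFinite _
  rw [scount_reindex (FF n) e Z N]
  have h2 := scount_cone (k := FF n) Z' hZ'
  rw [Fintype.card_fin] at h2
  rw [← h2, ← card_iso φ 0 none hφ0 (FF n), card_compl, Nat.card_fun, card_FF hn]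
  push_cast
  rfl

end

end Pool.Agent.Helper50.KR
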