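import Pool.Agent.Helper50.KR.Defs

/-!
# The weighted matrix tree theorem
-/

set_option autoImplicit false

open MvPolynomial

namespace Pool.Agent.Helper50.KR

namespace TreeAux

variable {V : Type} [DecidableEq V] {G : SimpleGraph V}

/-- source of an edge for a fixed orientation -/
noncomputable def src (e : G.edgeSet) : V := (Quot.out e.1).1

/-- target of an edge for a fixed orientation -/
noncomputable def tgt (e : G.edgeSet) : V := (Quot.out e.1).2

lemma mk_src_tgt (e : G.edgeSet) : s(src e, tgt e) = e.1 := by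
  have := Quot.out_eq e.1
  rw [← this]
  rfl

lemma src_ne_tgt (e : G.edgeSet) : src e ≠ tgt e := by
  have h : s(src e, tgt e) ∈ G.edgeSet := by rw [mk_src_tgt]; exact e.2
  exact (G.mem_edgeSet.mp h).ne

/-- the oriented incidence function -/
noncomputable def bb (e : G.edgeSet) (v : V) : ℤ :=
  (if v = src e then 1 else 0) - (if v = tgt e then 1 else 0)

lemma bb_sq (e : G.edgeSet) (v : V) : bb e v * bb e v = if v ∈ e.1 then 1 else 0 := by
  have h := src_ne_tgt e
  have hm : v ∈ e.1 ↔ v = src e ∨ v = tgt e := by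
    rw [← mk_src_tgt e, Sym2.mem_iff]
  unfold bb
  by_cases h1 : v = src e
  · have h2 : v ≠ tgt e := by rw [h1]; exact h
    rw [if_pos (hm.mpr (Or.inl h1)), if_pos h1, if_neg h2]
    norm_num
  · by_cases h2 : v = tgt e
    · rw [if_pos (hm.mpr (Or.inr h2)), if_neg h1, if_pos h2]
      norm_num
    · simp [hm, h1, h2]

lemma bb_mul (e : G.edgeSet) (v w : V) (hvw : v ≠ w) :
    bb e v * bb e w = if e.1 = s(v, w) then -1 else 0 := by
  have h := src_ne_tgt e
  have hm : e.1 = s(v, w) ↔ (src e = v ∧ tgt e = w) ∨ (src e = w ∧ tgt e = v) := by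
    rw [← mk_src_tgt e, Sym2.eq_iff]
  unfold bb
  by_cases h1 : v = src e
  · subst h1
    by_cases h2 : w = tgt e
    · subst h2
      simp [hm, h, h.symm]
    · simp [hm, h, Ne.symm h2, hvw, Ne.symm hvw, h2]
  · by_cases h1' : v = tgt e
    · subst h1'
      by_cases h2 : w = src e
      · subst h2
        simp [hm, h, h.symm]
      · simp [hm, h, Ne.symm h2, hvw, Ne.symm hvw, h2, h.symm, h1]
    · simp [hm, h1, h1', Ne.symm h1, Ne.symm h1']

open Classical in
lemma redLap_eq [Fintype V] (o : V) {R : Type*} [CommRing R] (x : G.edgeSet → R)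
    (v w : {v // v ≠ o}) :
    redLap G o x v w = ∑ e : G.edgeSet, (x e * (bb e v.1 : R)) * (bb e w.1 : R) := by
  unfold redLap
  split_ifs with h1 h2
  · subst h1
    refine Finset.sum_congr rfl fun e _ => ?_
    rw [mul_assoc, ← Int.cast_mul, bb_sq]
    split_ifs <;> simp
  · have hne : v.1 ≠ w.1 := h2.ne
    rw [Finset.sum_eq_single (⟨s(v.1, w.1), h2⟩ : G.edgeSet)]
    · rw [mul_assoc, ← Int.cast_mul, bb_mul _ _ _ hne]
      simp
    · intro e _ he
      rw [mul_assoc, ← Int.cast_mul, bb_mul _ _ _ hne, if_neg]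
      · simp
      · intro h
        exact he (Subtype.ext h)
    · simp
  · have hne : v.1 ≠ w.1 := fun h => h1 (Subtype.ext h)
    symm
    refine Finset.sum_eq_zero fun e _ => ?_
    rw [mul_assoc, ← Int.cast_mul, bb_mul _ _ _ hne, if_neg]
    · simp
    · intro h
      apply h2
      rw [← SimpleGraph.mem_edgeSet, ← h]
      exact e.2

open Classical in
lemma det_expand [Fintype V] (o : V) {R : Type*} [CommRing R] (x : G.edgeSet → R) :
    (redLap G o x).det = ∑ f : {v // v ≠ o} → G.edgeSet,
      (∏ v, x (f v) * (bb (f v) v.1 : R)) *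
        Matrix.det (Matrix.of fun v w => (bb (f v) w.1 : R)) := by
  have h1 : redLap G o x = fun v => ∑ e : G.edgeSet,
      (x e * (bb e v.1 : R)) • (fun w : {v // v ≠ o} => (bb e w.1 : R)) := by
    funext v w
    rw [redLap_eq]
    simp [Finset.sum_apply]
  have h2 := (Matrix.detRowAlternating (n := {v // v ≠ o}) (R := R)).toMultilinearMap.map_sum
    (fun (v : {v // v ≠ o}) (e : G.edgeSet) =>
      (x e * (bb e v.1 : R)) • (fun w : {v // v ≠ o} => (bb e w.1 : R)))
  have h3 : (redLap G o x).det = (Matrix.detRowAlternating (n := {v // v ≠ o}) (R := R)).toMultilinearMap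
      (fun v => ∑ e : G.edgeSet,
      (x e * (bb e v.1 : R)) • (fun w : {v // v ≠ o} => (bb e w.1 : R))) := by
    rw [h1]; rfl
  rw [h3, h2]
  refine Finset.sum_congr rfl fun f _ => ?_
  rw [MultilinearMap.map_smul_univ]
  rfl

/-- the matrix with rows the incidence vectors of the edges `g v` -/
noncomputable def NN (G : SimpleGraph V) (o : V) (g : {v // v ≠ o} → G.edgeSet) :
    Matrix {v // v ≠ o} {v // v ≠ o} ℤ := Matrix.of fun v w => bb (g v) w.1

lemma sum_perm [Fintype V] (o : V) {R : Type*} [CommRing R] (x : G.edgeSet → R)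
    (g : {v // v ≠ o} → G.edgeSet) :
    ∑ σ : Equiv.Perm {v // v ≠ o}, (∏ v, x (g (σ v)) * (bb (g (σ v)) v.1 : R)) *
        Matrix.det (Matrix.of fun v w => (bb (g (σ v)) w.1 : R)) =
      (∏ v, x (g v)) * (((NN G o g).det * (NN G o g).det : ℤ) : R) := by
  have h0 : ((NN G o g).det : R) = Matrix.det (Matrix.of fun v w : {v // v ≠ o} => (bb (g v) w.1 : R)) := by
    have := (Int.castRingHom R).map_det (NN G o g)
    simp only [eq_intCast] at this
    rw [this]
    rfl
  have h1 : ∀ σ : Equiv.Perm {v // v ≠ o},
      Matrix.det (Matrix.of fun v w : {v // v ≠ o} => (bb (g (σ v)) w.1 : R)) =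
      (Equiv.Perm.sign σ : R) * ((NN G o g).det : R) := by
    intro σ
    rw [h0, ← Matrix.det_permute]
    rfl
  have h2 : ((NN G o g).det : R) = ∑ σ : Equiv.Perm {v // v ≠ o}, (Equiv.Perm.sign σ : R) *
      ∏ v, (bb (g (σ v)) v.1 : R) := by
    rw [h0, Matrix.det_apply']
    rfl
  rw [Int.cast_mul]
  nth_rewrite 1 [h2]
  rw [Finset.sum_mul, Finset.mul_sum]
  refine Finset.sum_congr rfl fun σ _ => ?_
  rw [h1, Finset.prod_mul_distrib, Equiv.prod_comp σ (fun v => x (g v))]
  ring

/-- the subgraph given by a set of edges -/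
def sub (G : SimpleGraph V) (T : Set G.edgeSet) : SimpleGraph V :=
  SimpleGraph.fromEdgeSet (Subtype.val '' T)

lemma mulVec_eq [Fintype V] (o : V) {K : Type*} [CommRing K] (g : {v // v ≠ o} → G.edgeSet)
    (Y : V → K) (hY : Y o = 0) (v : {v // v ≠ o}) :
    (((NN G o g).map (Int.cast : ℤ → K)).mulVec (fun w => Y w.1)) v =
      Y (src (g v)) - Y (tgt (g v)) := by
  have h1 : (((NN G o g).map (Int.cast : ℤ → K)).mulVec (fun w => Y w.1)) v =
      ∑ w : {v // v ≠ o}, (bb (g v) w.1 : K) * Y w.1 := rfl
  have h2 : ∑ w : V, (bb (g v) w : K) * Y w = Y (src (g v)) - Y (tgt (g v)) := by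
    simp [bb, sub_mul, Finset.sum_sub_distrib]
  rw [h1, ← h2, ← Fintype.sum_subtype_add_sum_subtype (fun w => w ≠ o)]
  have h3 : ∑ i : {w : V // ¬ w ≠ o}, (bb (g v) i.1 : K) * Y i.1 = 0 := by
    refine Finset.sum_eq_zero fun i _ => ?_
    have : i.1 = o := not_not.mp i.2
    rw [this, hY, mul_zero]
  rw [h3, add_zero]

lemma det_eq_zero_iff [Fintype V] (o : V) (K : Type*) [CommRing K] [IsDomain K]
    (g : {v // v ≠ o} → G.edgeSet) :
    ((NN G o g).det : K) = 0 ↔ ¬ (sub G (Set.range g)).Connected := by
  have h0 : ((NN G o g).det : K) = ((NN G o g).map (Int.cast : ℤ → K)).det := by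
    have := (Int.castRingHom K).map_det (NN G o g)
    simp only [eq_intCast] at this
    rw [this]
    rfl
  rw [h0, ← Matrix.exists_mulVec_eq_zero_iff]
  constructor
  · rintro ⟨y, hy0, hy⟩ hc
    apply hy0
    set Y : V → K := fun v => if h : v ≠ o then y ⟨v, h⟩ else 0 with hYdef
    have hYo : Y o = 0 := by simp [hYdef]
    have hYy : (fun w : {v // v ≠ o} => Y w.1) = y := by
      funext w
      simp [hYdef, w.2]
    have hadj : ∀ a b, (sub G (Set.range g)).Adj a b → Y a = Y b := by
      intro a b hab
      unfold sub at hab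
      rw [SimpleGraph.fromEdgeSet_adj] at hab
      obtain ⟨⟨e, ⟨v, hv⟩, he⟩, -⟩ := hab
      have := mulVec_eq o g Y hYo v
      rw [hYy, hy, hv] at this
      have h5 : Y (src e) = Y (tgt e) := by
        have h6 : (0 : K) = Y (src e) - Y (tgt e) := this
        exact (sub_eq_zero.mp h6.symm)
      rw [← mk_src_tgt e, Sym2.eq_iff] at he
      rcases he with ⟨h1, h2⟩ | ⟨h1, h2⟩
      · rw [← h1, ← h2, h5]
      · rw [← h1, ← h2, h5]
    have hreach : ∀ a b, (sub G (Set.range g)).Reachable a b → Y a = Y b := by
      intro a b hab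
      obtain ⟨p⟩ := hab
      induction p with
      | nil => rfl
      | cons h _ ih => rw [hadj _ _ h, ih]
    rw [← hYy]
    funext w
    rw [hreach w.1 o (hc.preconnected _ _), hYo]
    rfl
  · intro hc
    classical
    set Y : V → K := fun v => if (sub G (Set.range g)).Reachable v o then 0 else 1 with hYdef
    have hYo : Y o = 0 := by simp [hYdef]
    have hadj : ∀ a b, (sub G (Set.range g)).Adj a b → Y a = Y b := by
      intro a b hab
      have : (sub G (Set.range g)).Reachable a o ↔ (sub G (Set.range g)).Reachable b o :=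
        ⟨fun h => (hab.reachable.symm).trans h, fun h => hab.reachable.trans h⟩
      simp only [hYdef, this]
    refine ⟨fun w => Y w.1, ?_, ?_⟩
    · intro hz
      apply hc
      have hall : ∀ a, (sub G (Set.range g)).Reachable a o := by
        intro a
        by_cases ha : a = o
        · rw [ha]
        · have := congrFun hz ⟨a, ha⟩
          by_contra hr
          simp [hYdef, hr] at this
      haveI : Nonempty V := ⟨o⟩
      exact ⟨fun a b => (hall a).trans (hall b).symm⟩
    · funext v
      rw [mulVec_eq o g Y hYo v]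
      have : (sub G (Set.range g)).Adj (src (g v)) (tgt (g v)) := by
        unfold sub
        rw [SimpleGraph.fromEdgeSet_adj]
        exact ⟨⟨g v, ⟨v, rfl⟩, (mk_src_tgt _).symm⟩, src_ne_tgt _⟩
      rw [hadj _ _ this, sub_self]
      rfl

lemma det_sq_one [Fintype V] (o : V) (g : {v // v ≠ o} → G.edgeSet)
    (hc : (sub G (Set.range g)).Connected) :
    (NN G o g).det * (NN G o g).det = 1 := by
  have h1 : (NN G o g).det.natAbs = 1 := by
    rw [Nat.eq_one_iff_not_exists_prime_dvd]
    intro p hp hd
    haveI : Fact p.Prime := ⟨hp⟩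
    have h2 : ((NN G o g).det : ZMod p) = 0 := by
      rw [ZMod.intCast_zmod_eq_zero_iff_dvd]
      exact Int.natCast_dvd.mpr hd
    exact (det_eq_zero_iff o (ZMod p) g).mp h2 hc
  rw [← Int.natAbs_mul_self' ]
  simp [h1]

lemma det_zero [Fintype V] (o : V) (g : {v // v ≠ o} → G.edgeSet)
    (hc : ¬ (sub G (Set.range g)).Connected) :
    (NN G o g).det = 0 := by
  have := (det_eq_zero_iff o ℤ g).mpr hc
  simpa using this

lemma tree_iff [Fintype V] (T : Finset G.edgeSet) :
    IsSpanningTree G T ↔ (sub G (T : Set G.edgeSet)).Connected ∧ T.card + 1 = Fintype.card V := by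
  unfold IsSpanningTree
  rw [SimpleGraph.isTree_iff_connected_and_card]
  have h1 : Nat.card (SimpleGraph.fromEdgeSet (Subtype.val '' (T : Set G.edgeSet))).edgeSet = T.card := by
    rw [SimpleGraph.edgeSet_fromEdgeSet]
    have h2 : (Subtype.val '' (T : Set G.edgeSet)) \ Sym2.diagSet = Subtype.val '' (T : Set G.edgeSet) := by
      rw [sdiff_eq_left, Set.disjoint_left]
      rintro _ ⟨e, _, rfl⟩ hd
      exact G.not_isDiag_of_mem_edgeSet e.2 hd
    rw [h2, Nat.card_image_of_injective Subtype.val_injective]
    simp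
  rw [h1, Nat.card_eq_fintype_card]
  rfl

end TreeAux

open TreeAux

/-- M7a (weighted matrix tree theorem) -/
theorem matrix_tree {V : Type} [Fintype V] [DecidableEq V] (G : SimpleGraph V) (o : V) {R : Type*} [CommRing R]
    (x : G.edgeSet → R) : (redLap G o x).det = aeval x (kirchhoff G) := by
  classical
  have hcardV : Fintype.card {v // v ≠ o} + 1 = Fintype.card V := by
    have h1 : Fintype.card {v // v ≠ o} = Fintype.card V - 1 := by
      simp [Fintype.card_subtype_compl]
    have h2 : 0 < Fintype.card V := Fintype.card_pos_iff.mpr ⟨o⟩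
    omega
  rw [det_expand]
  have hk : aeval x (kirchhoff G) = ∑ T : Finset G.edgeSet,
      if IsSpanningTree G T then ∏ e ∈ T, x e else 0 := by
    unfold kirchhoff
    rw [map_sum]
    refine Finset.sum_congr rfl fun T _ => ?_
    split_ifs <;> simp
  rw [hk, ← Finset.sum_fiberwise (Finset.univ : Finset ({v // v ≠ o} → G.edgeSet))
    (fun f => Finset.univ.image f)]
  refine Finset.sum_congr rfl fun T _ => ?_
  by_cases hT : T.card = Fintype.card {v // v ≠ o}
  · -- fix a bijection
    have e0 : {v // v ≠ o} ≃ T := by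
      refine Fintype.equivOfCardEq ?_
      simp [hT]
    set g : {v // v ≠ o} → G.edgeSet := fun v => (e0 v).1 with hg
    have hginj : Function.Injective g := fun a b h => e0.injective (Subtype.ext h)
    have hrange : Set.range g = (T : Set G.edgeSet) := by
      ext e
      constructor
      · rintro ⟨v, rfl⟩
        exact (e0 v).2
      · intro he
        exact ⟨e0.symm ⟨e, he⟩, by simp [hg]⟩
    have hprod : ∏ v, x (g v) = ∏ e ∈ T, x e := by
      rw [← Finset.prod_coe_sort T, ← Equiv.prod_comp e0]
    have hsum : ∑ f ∈ (Finset.univ : Finset ({v // v ≠ o} → G.edgeSet)) with Finset.univ.image f = T,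
        ((∏ v, x (f v) * (bb (f v) v.1 : R)) *
          Matrix.det (Matrix.of fun v w => (bb (f v) w.1 : R))) =
        ∑ σ : Equiv.Perm {v // v ≠ o}, (∏ v, x (g (σ v)) * (bb (g (σ v)) v.1 : R)) *
          Matrix.det (Matrix.of fun v w => (bb (g (σ v)) w.1 : R)) := by
      symm
      refine Finset.sum_nbij (fun σ => g ∘ σ) ?_ ?_ ?_ ?_
      · intro σ _
        simp only [Finset.mem_filter, Finset.mem_univ, true_and]
        ext e
        rw [← Finset.mem_coe, ← Finset.mem_coe, Finset.coe_image, Finset.coe_univ, Set.image_univ,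
          ← hrange, Set.range_comp]
        simp
      · intro σ _ τ _ h
        refine Equiv.ext fun v => hginj (congrFun h v)
      · intro f hf
        simp only [Finset.coe_filter, Finset.mem_univ, true_and, Set.mem_setOf_eq] at hf
        have hmem : ∀ v, f v ∈ T := fun v => by
          rw [← hf]; exact Finset.mem_image_of_mem _ (Finset.mem_univ v)
        have hbij : Function.Bijective (fun v => e0.symm ⟨f v, hmem v⟩) := by
          rw [← Finite.surjective_iff_bijective]
          intro v
          have : g v ∈ Finset.univ.image f := by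
            rw [hf]; exact (e0 v).2
          obtain ⟨w, _, hw⟩ := Finset.mem_image.mp this
          refine ⟨w, ?_⟩
          rw [Equiv.symm_apply_eq]
          exact Subtype.ext hw
        refine ⟨Equiv.ofBijective _ hbij, by simp, ?_⟩
        funext v
        simp [hg]
      · intro σ _
        rfl
    rw [hsum, sum_perm, hprod]
    by_cases hc : (sub G (Set.range g)).Connected
    · rw [det_sq_one o g hc, if_pos]
      · simp
      · rw [tree_iff, ← hrange]
        exact ⟨hc, by omega⟩
    · rw [det_zero o g hc, if_neg]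
      · simp
      · rw [tree_iff, ← hrange]
        exact fun h => hc h.1
  · rw [if_neg]
    · refine Finset.sum_eq_zero fun f hf => ?_
      simp only [Finset.mem_filter, Finset.mem_univ, true_and] at hf
      have hninj : ¬ Function.Injective f := by
        intro hinj
        apply hT
        rw [← hf, Finset.card_image_of_injective _ hinj, Finset.card_univ]
      rw [Function.not_injective_iff] at hninj
      obtain ⟨a, b, hab, hne⟩ := hninj
      rw [Matrix.det_zero_of_row_eq hne, mul_zero]
      funext w
      simp [hab]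
    · rw [tree_iff]
      intro h
      apply hT
      omega

end Pool.Agent.Helper50.KR
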